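import Pool.Agent.H.MP_a217de_gt.A

open Topology

namespace Pool.Agent.Results.MP_a217de_gt.NotLocal

/-- `p` is `C_a`-unstable in `M` for some nondegenerate continuum `C` and some `a : C`. -/
def PseudoUnstable {M : Type} [TopologicalSpace M] (p : M) : Prop :=
  ∃ (C : Type) (_ : MetricSpace C) (_ : CompactSpace C) (_ : ConnectedSpace C) (_ : Nontrivial C)
    (a : C) (F : M × C → M), Continuous F ∧ (∀ z, F (z, a) = z) ∧ ∀ z c, c ≠ a → F (z, c) ≠ p

open Pool.Agent.H.MP_a217de_gt in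
theorem result :
    ∃ (X Y : Type) (_ : MetricSpace X) (_ : CompactSpace X) (_ : ConnectedSpace X)
      (_ : MetricSpace Y) (_ : CompactSpace Y) (_ : ConnectedSpace Y) (x : X) (y : Y)
      (U : Set X) (V : Set Y) (hU : U ∈ 𝓝 x) (hV : V ∈ 𝓝 y) (h : U ≃ₜ V),
      h ⟨x, mem_of_mem_nhds hU⟩ = ⟨y, mem_of_mem_nhds hV⟩ ∧ PseudoUnstable x ∧
        ¬ PseudoUnstable y := by
  have h0 : ((1, 0) : P × ℝ) ∈ XS := ⟨X0_one, by simp⟩
  have hU : {z : XS | z.1.2 < 1} ∈ 𝓝 (⟨_, h0⟩ : XS) :=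
    (isOpen_lt (by fun_prop) continuous_const).mem_nhds (by simp)
  have hV : {z : YS | z.1.2 < 1} ∈ 𝓝 (⟨_, Or.inl h0⟩ : YS) :=
    (isOpen_lt (by fun_prop) continuous_const).mem_nhds (by simp)
  let h : {z : XS | z.1.2 < 1} ≃ₜ {z : YS | z.1.2 < 1} :=
    { toFun := fun z => ⟨⟨z.1.1, Or.inl z.1.2⟩, z.2⟩
      invFun := fun z => ⟨⟨z.1.1, z.1.2.resolve_right fun h => absurd z.2 (not_lt.2 h.2.1)⟩, z.2⟩
      left_inv := fun _ => rfl
      right_inv := fun _ => rfl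
      continuous_toFun := by fun_prop
      continuous_invFun := by fun_prop }
  refine ⟨XS, YS, TopologicalSpace.metrizableSpaceMetric _,
    isCompact_iff_compactSpace.1 XS_compact, isConnected_iff_connectedSpace.1 XS_conn,
    TopologicalSpace.metrizableSpaceMetric _, isCompact_iff_compactSpace.1 YS_compact,
    isConnected_iff_connectedSpace.1 YS_conn, ⟨_, h0⟩, ⟨_, Or.inl h0⟩, _, _, hU, hV, h, rfl, ?_, ?_⟩
  · refine ⟨X0, TopologicalSpace.metrizableSpaceMetric _, isCompact_iff_compactSpace.1 X0_compact,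
      isConnected_iff_connectedSpace.1 X0_conn,
      ⟨⟨1, X0_one⟩, ⟨bb 0 0, bb_mem 0 MM_zero⟩, fun h => ?_⟩, ⟨1, X0_one⟩,
      fun q => ⟨(q.1.1.1 * q.2.1, q.1.1.2), X0_mul q.1.2.1 q.2.2, q.1.2.2⟩, ?_, ?_, ?_⟩
    · have := congrFun (congrArg Subtype.val h) 0
      simp [bb] at this
    · fun_prop
    · intro z
      simp
    · intro z c hc h
      apply hc
      have h1 : z.1.1 * c.1 = 1 := congrArg (fun w : XS => w.1.1) h
      exact Subtype.ext (funext fun n => MM_unit (z.2.1.1 n) (c.2.1 n) (congrFun h1 n))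
  · rintro ⟨C, _, _, _, _, a, F, h1, h2, h3⟩
    obtain ⟨z, c, h4, h5⟩ := Y_stable a F h1 h2
    exact h3 z c h4 (Subtype.ext h5)

end Pool.Agent.Results.MP_a217de_gt.NotLocal
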